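import Pool.Agent.MP_fe71fa_lc.H18.Iface

set_option autoImplicit false

/-! Representations of the finite lattices of the class `FL` by equivalence relations. -/

namespace Pool.Agent.MP_fe71fa_lc.H35

open Pool.Agent.MP_fe71fa_lc.H18

/-- The plane over the two element field. -/
abbrev P : Type := ZMod 2 × ZMod 2

/-- The largest element of `M₃` whose subspace contains the vector. -/
def nu (v : P) : M3 :=
  if v.1 = 0 then (if v.2 = 0 then .top else .a) else (if v.2 = 0 then .b else .c)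

lemma nu_zero : nu 0 = ⊤ := by decide

lemma nu_add : ∀ (t : M3) (v w : P), t ≤ nu v → t ≤ nu w → t ≤ nu (v + w) := by decide

lemma nu_neg : ∀ v : P, nu (-v) = nu v := by decide

lemma nu_top : ∀ v : P, ⊤ ≤ nu v → v = 0 := by decide

lemma nu_inf : ∀ (t t' : M3) (v : P), t ⊓ t' ≤ nu v →
    ∃ w w' : P, t ≤ nu w ∧ t' ≤ nu w' ∧ v = w + w' := by decide

lemma nu_sep : ∀ t t' : M3, ¬ t ≤ t' → ∃ v : P, t' ≤ nu v ∧ ¬ t ≤ nu v := by decide

/-- The conclusion of `nu_two`. -/
def Two (v : P) (u u' : M3) : Prop :=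
  ∀ w w' : P, ¬ u ≤ nu w → ¬ u' ≤ nu w' → v = w ∨ v = w' ∨ v = w + w'

instance (v : P) (u u' : M3) : Decidable (Two v u u') := by
  unfold Two; infer_instance

lemma nu_two : ∀ (t : M3) (v : P), t ≤ nu v → v ≠ 0 → ∃ u u' : M3, ¬ u ≤ t ∧ ¬ u' ≤ t ∧
    Two v u u' := by decide

lemma nu_a : ∀ v : P, M3.a ≤ nu v ↔ v.1 = 0 := by decide

lemma nu_b : ∀ v : P, M3.b ≤ nu v ↔ v.2 = 0 := by decide

lemma nu_c : ∀ v : P, M3.c ≤ nu v ↔ v.1 + v.2 = 0 := by decide

lemma two_forms {V : Type} [AddCommGroup V] [Module (ZMod 2) V]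
    (W1 W2 W3 : Submodule (ZMod 2) V) (h : W2 ⊓ W3 ≤ W1) (x : V) (hx : x ∉ W1) :
    ∃ l m : V →ₗ[ZMod 2] ZMod 2, (∀ w ∈ W1, l w = 0) ∧ l x ≠ 0 ∧ (∀ w ∈ W2, m w = 0) ∧
      ∀ w ∈ W3, m w = l w := by
  obtain ⟨l, hl, hl'⟩ := Submodule.exists_le_ker_of_notMem hx
  have h1 : l ∈ (W2 ⊓ W3).dualAnnihilator := by
    rw [Submodule.mem_dualAnnihilator]
    intro w hw
    exact hl' (h hw)
  rw [Subspace.dualAnnihilator_inf_eq, Submodule.mem_sup] at h1
  obtain ⟨m, hm, k, hk, hmk⟩ := h1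
  rw [Submodule.mem_dualAnnihilator] at hm hk
  refine ⟨l, m, fun w hw => hl' hw, hl, hm, fun w hw => ?_⟩
  rw [← hmk]
  simp [hk w hw]

lemma m3_lemma {V : Type} [AddCommGroup V] [Module (ZMod 2) V]
    (W : M3 → Submodule (ZMod 2) V) (hW : ∀ t t', W (t ⊔ t') = W t ⊓ W t') (hb : W ⊥ = ⊤)
    (t : M3) (x : V) (hx : x ∉ W t) :
    ∃ h : V →ₗ[ZMod 2] P, (∀ s, ∀ w ∈ W s, s ≤ nu (h w)) ∧ ¬ t ≤ nu (h x) := by
  have hab : W .top = W .a ⊓ W .b := hW .a .b
  have hac : W .top = W .a ⊓ W .c := hW .a .c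
  have hbc : W .top = W .b ⊓ W .c := hW .b .c
  have fin : ∀ h : V →ₗ[ZMod 2] P, (∀ w ∈ W .a, M3.a ≤ nu (h w)) →
      (∀ w ∈ W .b, M3.b ≤ nu (h w)) → (∀ w ∈ W .c, M3.c ≤ nu (h w)) →
      ∀ s, ∀ w ∈ W s, s ≤ nu (h w) := by
    intro h ha hb' hc s w hw
    cases s with
    | bot => exact bot_le (a := nu (h w))
    | a => exact ha w hw
    | b => exact hb' w hw
    | c => exact hc w hw
    | top =>
      rw [hab] at hw
      exact sup_le (a := M3.a) (b := M3.b) (ha w hw.1) (hb' w hw.2)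
  have ca : x ∉ W .a → ∃ h : V →ₗ[ZMod 2] P,
      (∀ s, ∀ w ∈ W s, s ≤ nu (h w)) ∧ ¬ M3.a ≤ nu (h x) := by
    intro hx
    obtain ⟨l, m, h1, h2, h3, h4⟩ := two_forms (W .a) (W .b) (W .c)
      (by rw [← hbc, hab]; exact inf_le_left) x hx
    refine ⟨l.prod m, fin _ ?_ ?_ ?_, ?_⟩
    · intro w hw; rw [nu_a]; exact h1 w hw
    · intro w hw; rw [nu_b]; exact h3 w hw
    · intro w hw; rw [nu_c]
      change l w + m w = 0
      rw [h4 w hw]; exact CharTwo.add_self_eq_zero _
    · rw [nu_a]; exact h2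
  have cb : x ∉ W .b → ∃ h : V →ₗ[ZMod 2] P,
      (∀ s, ∀ w ∈ W s, s ≤ nu (h w)) ∧ ¬ M3.b ≤ nu (h x) := by
    intro hx
    obtain ⟨l, m, h1, h2, h3, h4⟩ := two_forms (W .b) (W .a) (W .c)
      (by rw [← hac, hab]; exact inf_le_right) x hx
    refine ⟨m.prod l, fin _ ?_ ?_ ?_, ?_⟩
    · intro w hw; rw [nu_a]; exact h3 w hw
    · intro w hw; rw [nu_b]; exact h1 w hw
    · intro w hw; rw [nu_c]
      change m w + l w = 0
      rw [h4 w hw]; exact CharTwo.add_self_eq_zero _
    · rw [nu_b]; exact h2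
  have cc : x ∉ W .c → ∃ h : V →ₗ[ZMod 2] P,
      (∀ s, ∀ w ∈ W s, s ≤ nu (h w)) ∧ ¬ M3.c ≤ nu (h x) := by
    intro hx
    obtain ⟨l, m, h1, h2, h3, h4⟩ := two_forms (W .c) (W .a) (W .b)
      (by rw [← hab, hac]; exact inf_le_right) x hx
    have key : ∀ w, m w + (l w + m w) = l w := by
      intro w
      rw [add_comm (l w), ← add_assoc, CharTwo.add_self_eq_zero, zero_add]
    refine ⟨m.prod (l + m), fin _ ?_ ?_ ?_, ?_⟩
    · intro w hw; rw [nu_a]; exact h3 w hw
    · intro w hw; rw [nu_b]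
      change l w + m w = 0
      rw [h4 w hw]; exact CharTwo.add_self_eq_zero _
    · intro w hw; rw [nu_c]
      change m w + (l w + m w) = 0
      rw [key, h1 w hw]
    · rw [nu_c]
      change ¬ m x + (l x + m x) = 0
      rw [key]; exact h2
  cases t with
  | bot => exact absurd (by change x ∈ W ⊥; rw [hb]; trivial) hx
  | a => exact ca hx
  | b => exact cb hx
  | c => exact cc hx
  | top =>
    by_cases h : x ∈ W .a
    · have h' : x ∉ W .b := fun h' => hx (by rw [hab]; exact ⟨h, h'⟩)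
      obtain ⟨f, h1, h2⟩ := cb h'
      exact ⟨f, h1, fun h3 => h2 (le_trans (le_top (a := M3.b)) h3)⟩
    · obtain ⟨f, h1, h2⟩ := ca h
      exact ⟨f, h1, fun h3 => h2 (le_trans (le_top (a := M3.a)) h3)⟩

/-- The bounded homomorphisms to `M₃`. -/
abbrev K (G : FL) : Type := BoundedLatticeHom G M3

instance (G : FL) : Finite (K G) :=
  Finite.of_injective (fun π : K G => (π : G → M3)) DFunLike.coe_injective

/-- The underlying space of the representation. -/
abbrev V (G : FL) : Type := K G → P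

/-- The equivalence relations of the representation. -/
def R (G : FL) (r : G) (x y : V G) : Prop := ∀ π : K G, π r ≤ nu (x π - y π)

/-- The subspace of the vectors related to zero. -/
def U (G : FL) (r : G) : Submodule (ZMod 2) (V G) where
  carrier := {x | ∀ π : K G, π r ≤ nu (x π)}
  zero_mem' := fun π => by
    change π r ≤ nu 0
    rw [nu_zero]; exact le_top
  add_mem' := fun hx hy π => nu_add _ _ _ (hx π) (hy π)
  smul_mem' := fun c x hx π => by
    have : c = 0 ∨ c = 1 := by revert c; decide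
    rcases this with rfl | rfl
    · rw [zero_smul]
      change π r ≤ nu 0
      rw [nu_zero]; exact le_top
    · rw [one_smul]; exact hx π

lemma mem_U {G : FL} {r : G} {x : V G} : x ∈ U G r ↔ ∀ π : K G, π r ≤ nu (x π) := Iff.rfl

lemma R_iff {G : FL} {r : G} {x y : V G} : R G r x y ↔ x - y ∈ U G r := Iff.rfl

lemma U_sup (G : FL) (r s : G) : U G (r ⊔ s) = U G r ⊓ U G s := by
  ext x
  simp only [Submodule.mem_inf, mem_U, map_sup, sup_le_iff, forall_and]

lemma U_bot (G : FL) : U G ⊥ = ⊤ := by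
  ext x
  simp [mem_U]

lemma U_anti {G : FL} {r s : G} (h : r ≤ s) : U G s ≤ U G r := by
  intro x hx π
  exact le_trans (OrderHomClass.mono π h) (hx π)

lemma U_inf (G : FL) (r s : G) (x : V G) (hx : x ∈ U G (r ⊓ s)) :
    ∃ y ∈ U G r, ∃ z ∈ U G s, x = y + z := by
  have : ∀ π : K G, ∃ w w' : P, π r ≤ nu w ∧ π s ≤ nu w' ∧ x π = w + w' := by
    intro π
    apply nu_inf
    rw [← map_inf]
    exact hx π
  choose y z h1 h2 h3 using this
  exact ⟨y, h1, z, h2, funext h3⟩

lemma exists_low (G : FL) (π : K G) (t : M3) : ∃ l : G, ∀ r, l ≤ r ↔ t ≤ π r := by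
  classical
  have := Fintype.ofFinite G
  refine ⟨(Finset.univ.filter fun r => t ≤ π r).inf id, fun r => ⟨fun h => ?_, fun h => ?_⟩⟩
  · refine le_trans ?_ (OrderHomClass.mono π h)
    rw [map_finset_inf, Finset.le_inf_iff]
    intro s hs
    exact (Finset.mem_filter.1 hs).2
  · exact Finset.inf_le (f := id) (Finset.mem_filter.2 ⟨Finset.mem_univ _, h⟩)

/-- The lower adjoint of a bounded homomorphism. -/
noncomputable def low {G : FL} (π : K G) (t : M3) : G := (exists_low G π t).choose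

lemma low_le {G : FL} (π : K G) (t : M3) (r : G) : low π t ≤ r ↔ t ≤ π r :=
  (exists_low G π t).choose_spec r

lemma low_sup {G : FL} (π : K G) (t t' : M3) : low π (t ⊔ t') = low π t ⊔ low π t' :=
  eq_of_forall_ge_iff fun r => by simp only [low_le, sup_le_iff]

lemma low_bot {G : FL} (π : K G) : low π ⊥ = ⊥ :=
  le_bot_iff.1 ((low_le _ _ _).2 bot_le)

lemma JH_mono {G G' : FL} {g : G → G'} (hg : JH g) {r s : G} (h : r ≤ s) : g r ≤ g s := by
  rw [← sup_eq_right.2 h, hg.1]
  exact le_sup_left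

open Classical in
lemma single_mem {G : FL} {r : G} (π : K G) (v : P) (h : π r ≤ nu v) :
    (Pi.single π v : V G) ∈ U G r := by
  intro π'
  by_cases hπ : π' = π
  · subst hπ; rwa [Pi.single_eq_same]
  · rw [Pi.single_eq_of_ne hπ, nu_zero]; exact le_top

open Classical in
lemma key {G G' : FL} {g : G → G'} (hg : JH g) (π : K G) (t : M3) (z : V G')
    (hz : z ∉ U G' (g (low π t))) :
    ∃ h : V G' →ₗ[ZMod 2] P, (∀ s u w, R G' (g s) u w →
      R G s (Pi.single π (h u)) (Pi.single π (h w))) ∧ ¬ t ≤ nu (h z) := by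
  obtain ⟨h, h1, h2⟩ := m3_lemma (fun t => U G' (g (low π t)))
    (fun t t' => by rw [low_sup, hg.1, U_sup]) (by rw [low_bot, hg.2.1, U_bot]) t z hz
  refine ⟨h, fun s u w huw => ?_, h2⟩
  rw [R_iff] at huw ⊢
  rw [← Pi.single_sub, ← map_sub]
  apply single_mem
  apply h1
  exact U_anti (JH_mono hg ((low_le _ _ _).2 le_rfl)) huw

lemma cog (G G' : FL) (g : G → G') (hg : JH g) (r : G) (x y : V G') (hxy : ¬ R G' (g r) x y) :
    ∃ h : V G' → V G, (∀ s u w, R G' (g s) u w → R G s (h u) (h w)) ∧ ¬ R G r (h x) (h y) := by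
  classical
  have := Fintype.ofFinite (K G)
  have h1 : ∃ π : K G, x - y ∉ U G' (g (low π (π r))) := by
    by_contra hcon
    push Not at hcon
    apply hxy
    rw [R_iff]
    have h2 : r ≤ Finset.univ.sup fun π : K G => low π (π r) := by
      by_contra h3
      obtain ⟨π, hπ⟩ := G.sep _ _ h3
      apply hπ
      rw [← low_le]
      exact Finset.le_sup (f := fun π : K G => low π (π r)) (Finset.mem_univ π)
    refine U_anti (JH_mono hg h2) ?_
    refine Finset.sup_induction (p := fun s => x - y ∈ U G' (g s)) ?_ ?_ fun π _ => hcon π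
    · rw [hg.2.1, U_bot]; trivial
    · intro s hs s' hs'
      rw [hg.1, U_sup]
      exact ⟨hs, hs'⟩
  obtain ⟨π, hπ⟩ := h1
  obtain ⟨h, h2, h3⟩ := key hg π _ _ hπ
  refine ⟨fun u => Pi.single π (h u), ?_, fun h4 => h3 ?_⟩
  · intro s u w huw
    convert h2 s u w huw
  · have := h4 π
    simp only [Pi.single_eq_same] at this
    rwa [← map_sub] at this

lemma closed (G : FL) (ρ : V G → V G → Prop) (hρ : Equivalence ρ)
    (hc : ∀ h : V G → V G, (∀ r x y, R G r x y → R G r (h x) (h y)) →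
      ∀ x y, ρ x y → ρ (h x) (h y)) : ∃ r, ∀ x y, ρ x y ↔ R G r x y := by
  classical
  have := Fintype.ofFinite (K G)
  have := Fintype.ofFinite G
  have tr : ∀ z x y, ρ x y → ρ (x + z) (y + z) := by
    intro z
    apply hc (fun x => x + z)
    intro r x y h
    rw [R_iff] at h ⊢
    rwa [add_sub_add_right_eq_sub]
  have e0 : ∀ x y, ρ x y ↔ ρ (x - y) 0 := by
    intro x y
    constructor
    · intro h
      have := tr (-y) x y h
      rwa [add_neg_cancel, ← sub_eq_add_neg] at this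
    · intro h
      have := tr y _ _ h
      rwa [sub_add_cancel, zero_add] at this
  have ad : ∀ x y, ρ x 0 → ρ y 0 → ρ (x + y) 0 := by
    intro x y hx hy
    have := tr y _ _ hx
    rw [zero_add] at this
    exact hρ.trans this hy
  have idJ : JH (id : G → G) := ⟨fun _ _ => rfl, rfl, rfl⟩
  have main : ∀ x, ρ x 0 → ∃ d : G, x ∈ U G d ∧ ∀ y ∈ U G d, ρ y 0 := by
    intro x hx
    set d : G := (Finset.univ.filter fun s => x ∈ U G s).sup id with hd
    have hxd : x ∈ U G d := by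
      refine Finset.sup_induction (p := fun s => x ∈ U G s) ?_ ?_ fun s hs => ?_
      · rw [U_bot]; trivial
      · intro s hs s' hs'
        rw [U_sup]
        exact ⟨hs, hs'⟩
      · exact (Finset.mem_filter.1 hs).2
    refine ⟨d, hxd, fun y hy => ?_⟩
    have one : ∀ (π : K G) (u : M3), ¬ u ≤ π d →
        ∃ w : P, ¬ u ≤ nu w ∧ ρ (Pi.single π w) 0 := by
      intro π u hu
      have h1 : x ∉ U G (id (low π u)) := by
        intro h
        apply hu
        rw [← low_le]
        exact Finset.le_sup (f := id) (Finset.mem_filter.2 ⟨Finset.mem_univ _, h⟩)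
      obtain ⟨h, h2, h3⟩ := key idJ π u x h1
      refine ⟨h x, h3, ?_⟩
      have := hc (fun u => Pi.single π (h u)) (fun s u w huw => by
        have e := h2 s u w huw
        rwa [Subsingleton.elim (fun a b => Classical.propDecidable (a = b))
          (inferInstance : DecidableEq (K G))] at e) x 0 hx
      rwa [map_zero, Pi.single_zero] at this
    have sing : ∀ π : K G, ρ (Pi.single π (y π)) 0 := by
      intro π
      by_cases h0 : y π = 0
      · rw [h0, Pi.single_zero]; exact hρ.refl _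
      obtain ⟨u, u', hu, hu', h⟩ := nu_two _ _ (hy π) h0
      obtain ⟨w, hw, hw1⟩ := one π u hu
      obtain ⟨w', hw', hw2⟩ := one π u' hu'
      rcases h w w' hw hw' with h | h | h
      · rwa [h]
      · rwa [h]
      · rw [h, Pi.single_add]; exact ad _ _ hw1 hw2
    rw [← Finset.univ_sum_single y]
    exact Finset.sum_induction _ (fun z => ρ z 0) ad (hρ.refl _) fun π _ => sing π
  refine ⟨(Finset.univ.filter fun s => ∀ y ∈ U G s, ρ y 0).inf id, fun x y => ?_⟩
  rw [e0, R_iff]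
  constructor
  · intro h
    obtain ⟨d, h1, h2⟩ := main _ h
    exact U_anti (Finset.inf_le (f := id) (Finset.mem_filter.2 ⟨Finset.mem_univ _, h2⟩)) h1
  · revert x y
    suffices h : ∀ z ∈ U G ((Finset.univ.filter fun s => ∀ y ∈ U G s, ρ y 0).inf id), ρ z 0 from
      fun x y => h _
    refine Finset.inf_induction (p := fun s => ∀ z ∈ U G s, ρ z 0) ?_ ?_ fun s hs => ?_
    · intro z hz
      have : z = 0 := funext fun π => nu_top _ (by have := hz π; rwa [map_top] at this)
      rw [this]; exact hρ.refl _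
    · intro s hs s' hs' z hz
      obtain ⟨y, hy, w, hw, rfl⟩ := U_inf G s s' z hz
      exact ad _ _ (hs y hy) (hs' w hw)
    · exact (Finset.mem_filter.1 hs).2

theorem reps : RepStmt := by
  classical
  refine ⟨{
    V := V
    fin := fun G => inferInstance
    ne := fun G => ⟨0⟩
    R := R
    eqv := fun G r => ⟨fun x => ?_, fun {x y} h => ?_, fun {x y z} h h' => ?_⟩
    sup := fun G r s x y => ?_
    top := fun G x y => ⟨fun h => ?_, fun h => ?_⟩
    bot := fun G x y => ?_
    sep := fun G r s h => ?_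
    closed := closed
    cog := cog }⟩
  · rw [R_iff, sub_self]; exact zero_mem _
  · rw [R_iff] at h ⊢
    rw [← neg_sub]; exact neg_mem h
  · rw [R_iff] at h h' ⊢
    have := add_mem h h'
    rwa [sub_add_sub_cancel] at this
  · rw [R_iff, R_iff, R_iff, U_sup]; rfl
  · exact funext fun π => sub_eq_zero.1 (nu_top _ (by have := h π; rwa [map_top] at this))
  · rw [h, R_iff, sub_self]; exact zero_mem _
  · rw [R_iff, U_bot]; trivial
  · obtain ⟨π, hπ⟩ := G.sep r s h
    obtain ⟨v, h1, h2⟩ := nu_sep _ _ hπ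
    refine ⟨Pi.single π v, 0, ?_, fun h3 => h2 ?_⟩
    · rw [R_iff, sub_zero]
      convert single_mem π v h1
    · have := h3 π
      rwa [Pi.single_eq_same, Pi.zero_apply, sub_zero] at this

end Pool.Agent.MP_fe71fa_lc.H35
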